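import Pool.Agent.Helper74.WB.St

/-! Project WB (MP_26f0da_lc), module INN: an innermost pair. -/

set_option autoImplicit false

namespace Pool.Agent.Helper99.WB

open Pool.Agent.Helper74 Pool.Agent.Helper74.WB

/-- MODULE INN. -/
theorem hINN : StINN := by
  intro Λ w hq hw
  induction hw with
  | nil =>
    left
    intro a ha
    simp at ha
  | skip x w hw ih =>
    have hx : true = x.2 := hq (x, true) (by simp)
    rcases ih (fun a ha => hq a (by simp [ha])) with h | ⟨α, S, β, y, p, p', e, hS, hO⟩
    · left
      intro a ha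
      rcases List.mem_cons.mp ha with h1 | h1
      · subst h1
        exact hx.symm
      · exact h a h1
    · right
      refine ⟨(x, true) :: α, S, β, y, p, p', ?_, hS, OP.skip x _ hO⟩
      rw [e]
      rfl
  | wrap x o o' u v hu hv ihu ihv =>
    right
    rcases ihu (fun a ha => hq a (by simp [ha])) with h | ⟨α, S, β, y, p, p', e, hS, hO⟩
    · exact ⟨[], u, v, x, o, o', rfl, h, hv⟩
    · refine ⟨(x, o) :: α, S, β ++ (iv x, o') :: v, y, p, p', ?_, hS, ?_⟩
      · rw [e]
        simp
      · have e1 : (x, o) :: α ++ (β ++ (iv x, o') :: v) =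
            (x, o) :: ((α ++ β) ++ (iv x, o') :: v) := by simp
        rw [e1]
        exact OP.wrap x o o' (α ++ β) v hO hv

end Pool.Agent.Helper99.WB
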