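import Pool.Agent.Helper74.WB.St

/-! Project WB (MP_26f0da_lc), module INS: insertion. -/

set_option autoImplicit false

namespace Pool.Agent.Helper99.WB

open Pool.Agent.Helper74 Pool.Agent.Helper74.WB

/-- MODULE INS. -/
theorem hINS (hGRA : StGRA) (hGRE : StGRE) : StINS := by
  intro Λ u m v huv hm
  rw [hGRE, gr_append] at huv
  obtain ⟨ρ, h1, h2⟩ := huv
  rw [hGRE, gr_append]
  refine ⟨ρ, h1, ?_⟩
  rw [gr_append]
  exact ⟨ρ, hGRA Λ m ρ hm (red_gr u [] ρ red_nil h1), h2⟩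

end Pool.Agent.Helper99.WB
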